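import Pool.Agent.Helper49.PA.Sim

/-! The Props of part A (combinatorics). -/

namespace PA49

open Combinatorics

/-- Separated quotient of a pseudo-similarity. -/
def G_SEP : Prop := ∀ (L : Type) [Lattice L] [BoundedOrder L] (X : Type) [Finite X]
  (s : PSim L X), ∃ (Y : Type) (_ : Finite Y) (t : Sim L Y) (f : X → Y),
    Function.Surjective f ∧ Isom s t.toPSim f

/-- Amalgamation over one point. -/
def G_AM1 : Prop := ∀ (L : Type) [Lattice L] [BoundedOrder L] (W Y : Type) [Finite W] [Finite Y]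
  (s : Sim L W) (t : Sim L Y) (w : W) (y : Y),
  ∃ (V : Type) (_ : Finite V) (v : Sim L V) (i : W → V) (j : Y → V),
    Isom s.toPSim v.toPSim i ∧ Isom t.toPSim v.toPSim j ∧ i w = j y ∧
    (∀ x z, v.k (i x) (j z) = s.k x w ⊓ t.k y z) ∧
    ∀ p, (∃ x, i x = p) ∨ ∃ z, j z = p

/-- Amalgamation over two points. -/
def G_AM2 : Prop := ∀ (L : Type) [Lattice L] [BoundedOrder L] (W Y : Type) [Finite W] [Finite Y]
  (s : Sim L W) (t : Sim L Y) (p q : W) (a b : Y),
  s.k p q = t.k a b → (∀ w, s.k w p ≤ s.k p q ∨ s.k w q ≤ s.k p q) →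
  ∃ (V : Type) (_ : Finite V) (v : Sim L V) (i : W → V) (j : Y → V),
    Isom s.toPSim v.toPSim i ∧ Isom t.toPSim v.toPSim j ∧ i p = j a ∧ i q = j b

/-- A chain of copies of pairs. -/
def G_CHAIN : Prop := ∀ (L : Type) [Lattice L] [BoundedOrder L] (Y : Type) [Finite Y]
  (t : Sim L Y) (P : List (Y × Y)),
  ∃ (C : Type) (_ : Finite C) (c : Sim L C) (u v : C), c.k u v = infP t.toPSim P ∧
    Chain t.toPSim c.toPSim P u v

/-- The ring of copies: a pair `c, d` whose similarity is at least the infimum of the pairs in `P`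
becomes joined by a chain of copies of pairs in `P` in some finite extension. -/
def G_RING : Prop := ∀ (L : Type) [Lattice L] [BoundedOrder L] (W Y : Type) [Finite W] [Finite Y]
  (s : Sim L W) (t : Sim L Y) (P : List (Y × Y)) (c d : W),
  infP t.toPSim P ≤ s.k c d →
  ∃ (V : Type) (_ : Finite V) (v : Sim L V) (i : W → V), Isom s.toPSim v.toPSim i ∧
    Chain t.toPSim v.toPSim P (i c) (i d)

/-- One step of the tower. -/
def G_STEP : Prop := ∀ (L : Type) [Lattice L] [BoundedOrder L] (X Y : Type) [Finite X]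
  [Finite Y] (s : Sim L X) (t : Sim L Y) (e : X → Y), Isom s.toPSim t.toPSim e →
  ∃ (V : Type) (_ : Finite V) (v : Sim L V) (i : Y → V), Isom t.toPSim v.toPSim i ∧
    ∀ (P : List (X × X)) (c d : X), infP s.toPSim P ≤ s.k c d →
      Chain t.toPSim v.toPSim (P.map fun p => (e p.1, e p.2)) (i (e c)) (i (e d))

/-- Good spaces exist. -/
def G_GOOD : Prop := ∀ (L : Type) [Lattice L] [BoundedOrder L] (X : Type) [Finite X]
  (s : Sim L X), ∃ (Z : Type) (_ : Finite Z) (z : Sim L Z), GoodFor s.toPSim z.toPSim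

/-- The colour of a substituted word with a parameter depends only on the letters before the first
parameter. -/
def G_PRE : Prop := ∀ (A κ : Type) [Finite A] [Finite κ] (D : ℕ),
  ∃ (ι : Type) (_ : Finite ι), ∀ C : (ι → Option A) → κ, ∃ S : Subspace (Fin D) A ι,
    ∀ (i : Fin D) (w w' : Fin D → Option A), FirstAt w i → FirstAt w' i →
      (∀ j, j < i → w j = w' j) → C (subO S w) = C (subO S w')

/-- Levels: prefix colourings become constant on every level of an ordered subspace. -/
def G_P2 : Prop := ∀ (A κ : Type) [Finite A] [Nonempty A] [Finite κ] (M : ℕ), ∃ D : ℕ,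
  ∀ c : Fin D → (Fin D → A) → κ, (∀ p u u', (∀ j, j < p → u j = u' j) → c p u = c p u') →
    ∃ (S : Subspace (Fin M) A (Fin D)) (pos : Fin M → Fin D) (χ : Fin M → κ), Pos S pos ∧
      ∀ i x, c (pos i) (S x) = χ i

/-- The colour depends only on the place of the first parameter. -/
def G_LEV : Prop := ∀ (A κ : Type) [Finite A] [Nonempty A] [Finite κ] (M : ℕ),
  ∃ (ι : Type) (_ : Finite ι), ∀ C : (ι → Option A) → κ, ∃ S : Subspace (Fin M) A ι,
    ∀ (i : Fin M) (w w' : Fin M → Option A), FirstAt w i → FirstAt w' i →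
      C (subO S w) = C (subO S w')

/-- The Graham-Rothschild theorem for lines. -/
def G_GR : Prop := ∀ (A κ η : Type) [Finite A] [Finite κ] [Finite η] [Nonempty κ],
  ∃ (ι : Type) (_ : Finite ι), ∀ C : (ι → Option A) → κ, ∃ (S : Subspace η A ι) (c : κ),
    ∀ w : η → Option A, (∃ e, w e = none) → C (subO S w) = c

/-- The canonical Hales-Jewett theorem. -/
def G_CHJ : Prop := ∀ (A η : Type) [Finite A] [Finite η], ∃ (ι : Type) (_ : Finite ι),
  ∀ Θ : (ι → A) → (ι → A) → Prop, Equivalence Θ →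
    ∃ (S : Subspace η A ι) (ψ : A → A → Prop), Equivalence ψ ∧
      ∀ x y : η → A, Θ (S x) (S y) ↔ ∀ e, ψ (x e) (y e)

/-- The result of part A: `n`-canonical partition representations exist. -/
def G_PARTA : Prop := ∀ (L : Type) [Lattice L] [BoundedOrder L] [Finite L] (n : ℕ),
  ∃ (m : ℕ) (s : Sim L (Fin (m + 1))), CPP s.k n Set.univ

end PA49
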