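import Mathlib

/-! Lattice valued similarities (ultrametrics), the combinatorial part of the theorem that every
finite lattice is a substructure lattice of a model of Peano arithmetic. -/

namespace PA49

/-- A pseudo-similarity on `X` with values in `L`: `k x y` is the degree of agreement of `x` and
`y` (an ultrametric with values in the dual of `L`). -/
structure PSim (L : Type) [Lattice L] [BoundedOrder L] (X : Type) where
  k : X → X → L
  refl : ∀ x, k x x = ⊤
  symm : ∀ x y, k x y = k y x
  tri : ∀ x y z, k x y ⊓ k y z ≤ k x z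

/-- A similarity: a pseudo-similarity with `k x y = ⊤` only for `x = y`. -/
structure Sim (L : Type) [Lattice L] [BoundedOrder L] (X : Type) extends PSim L X where
  sep : ∀ x y, k x y = ⊤ → x = y

variable {L : Type} [Lattice L] [BoundedOrder L]

/-- Nonexpansive maps: they do not decrease the similarity. -/
def NE {X Y : Type} (s : PSim L X) (t : PSim L Y) (f : X → Y) : Prop :=
  ∀ x y, s.k x y ≤ t.k (f x) (f y)

/-- Isometric maps. -/
def Isom {X Y : Type} (s : PSim L X) (t : PSim L Y) (f : X → Y) : Prop :=
  ∀ x y, t.k (f x) (f y) = s.k x y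

/-- The infimum of the similarities of a list of pairs. -/
def infP {X : Type} (s : PSim L X) (P : List (X × X)) : L :=
  P.foldr (fun p r => s.k p.1 p.2 ⊓ r) ⊤

/-- `u` and `v` are joined in `W` by a chain of copies, under nonexpansive maps `Y → W`, of pairs
in `P`. -/
def Chain {Y W : Type} (t : PSim L Y) (w : PSim L W) (P : List (Y × Y)) (u v : W) : Prop :=
  Relation.EqvGen (fun u v => ∃ h : Y → W, NE t w h ∧ ∃ p ∈ P, u = h p.1 ∧ v = h p.2) u v

/-- Powers. -/
def powSim {X : Type} (s : Sim L X) (ι : Type) [Fintype ι] : Sim L (ι → X) where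
  k x y := Finset.univ.inf fun i => s.k (x i) (y i)
  refl x := by simp [s.refl]
  symm x y := by simp [s.symm]
  tri x y z := by
    refine Finset.le_inf fun i _ => ?_
    exact (inf_le_inf (Finset.inf_le (Finset.mem_univ i)) (Finset.inf_le (Finset.mem_univ i))).trans
      (s.tri _ _ _)
  sep x y h := by
    funext i
    apply s.sep
    have h1 : Finset.univ.inf (fun i => s.k (x i) (y i)) ≤ s.k (x i) (y i) :=
      Finset.inf_le (f := fun i => s.k (x i) (y i)) (Finset.mem_univ i)
    rw [h] at h1
    exact top_le_iff.mp h1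

/-- The base requirement for a subset `S` of `X`: every level relation other than the one of `⊥`
has three inequivalent points in `S`, and different elements of `L` give different relations
on `S`. -/
def Base {X : Type} (k : X → X → L) (S : Set X) : Prop :=
  (∀ r, r ≠ ⊥ → ∃ x ∈ S, ∃ y ∈ S, ∃ z ∈ S, ¬ r ≤ k x y ∧ ¬ r ≤ k y z ∧ ¬ r ≤ k x z) ∧
  ∀ r s, (∀ x ∈ S, ∀ y ∈ S, (r ≤ k x y ↔ s ≤ k x y)) → r = s

/-- The `n`-canonical partition property of a subset `S` of `X`. -/
def CPP {X : Type} (k : X → X → L) : ℕ → Set X → Prop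
  | 0, S => Base k S
  | n + 1, S => Base k S ∧ ∀ Θ : X → X → Prop, Equivalence Θ →
      ∃ T ⊆ S, CPP k n T ∧ ∃ r : L, ∀ x ∈ T, ∀ y ∈ T, (Θ x y ↔ r ≤ k x y)

/-- `Z` is good for `X`: every equivalence relation on `Z` pulls back, under a suitable family of
nonexpansive maps containing an isometric one, to a level relation on `X`. -/
def GoodFor {X Z : Type} (s : PSim L X) (z : PSim L Z) : Prop :=
  ∀ ψ : Z → Z → Prop, Equivalence ψ → ∃ F : Set (X → Z), (∀ f ∈ F, NE s z f) ∧
    (∃ f ∈ F, Isom s z f) ∧ ∃ r : L, ∀ x y, (∀ f ∈ F, ψ (f x) (f y)) ↔ r ≤ s.k x y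

/-! ### Words with parameters -/

open Combinatorics

/-- Substitution of a word over `Option A` into a subspace over the alphabet `A`. -/
def subO {η A ι : Type} (S : Subspace η A ι) (w : η → Option A) (i : ι) : Option A :=
  match S.idxFun i with
  | .inl a => some a
  | .inr e => w e

/-- Substitution of a line into a word over `Option A`. -/
def evO {A ι : Type} (w : ι → Option A) (a : A) (i : ι) : A := (w i).getD a

/-- `w` has its first parameter `none` at the place `i`. -/
def FirstAt {A : Type} {D : ℕ} (w : Fin D → Option A) (i : Fin D) : Prop :=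
  w i = none ∧ ∀ j, j < i → w j ≠ none

/-- The parameters of `S` occur in increasing order, the first occurrence of `i` being `pos i`. -/
def Pos {A : Type} {M D : ℕ} (S : Subspace (Fin M) A (Fin D)) (pos : Fin M → Fin D) : Prop :=
  StrictMono pos ∧ (∀ i, S.idxFun (pos i) = .inr i) ∧
    ∀ i j, j < pos i → ∀ e, S.idxFun j = .inr e → e < i

end PA49
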